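import Pool.Agent.N24.RW.Stm
import Pool.Agent.N603.TH.Pol

/-!
# Random orbits and prime divisors of the values of polynomials (helper file)
-/

set_option autoImplicit false

namespace Pool.Agent.N618.RO

open MvPolynomial MeasureTheory Filter Topology
open Pool.Agent.N24.RW Pool.Agent.N603.TH

/-- the points at which the value of `h` is zero or has no prime divisor above `D` which does not
divide the value of `G` -/
def Bd {r : ℕ} (h G : MvPolynomial (Fin r) ℤ) (D : ℕ) : Set (Fin r → ℤ) :=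
  {t | ¬ (eval t h ≠ 0 ∧ ∃ p : ℕ, p.Prime ∧ D < p ∧ (p : ℤ) ∣ eval t h ∧ ¬ (p : ℤ) ∣ eval t G)}

theorem aeval_red {r p : ℕ} (f : MvPolynomial (Fin r) ℤ) (v : Fin r → ℤ) :
    aeval (fun i => (v i : ZMod p)) f = ((eval v f : ℤ) : ZMod p) := by
  rw [aeval_def, algebraMap_int_eq]
  have h1 : (Int.castRingHom (ZMod p)) (eval v f) = eval₂ (Int.castRingHom (ZMod p))
      (fun i => (Int.castRingHom (ZMod p)) (v i)) f := by
    rw [eval, coe_eval₂Hom, hom_eval₂, RingHom.comp_id]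
  exact h1.symm

theorem bd_null (hC : S_CRIT) (hD : S_CLO) {r : ℕ} {h G : MvPolynomial (Fin r) ℤ} (h0 : h ≠ 0)
    (hdiv : Divergent h G) (D : ℕ) : ProNull (Bd h G D) := by
  obtain ⟨hmono, hunion, -, hzero, -⟩ := hD (Fin r)
  have h1 : ProNull {c : Fin r → ℤ | eval c h = 0} := hzero h h0
  have h2 : ProNull {c : Fin r → ℤ | ∀ p, p.Prime → D < p →
      (fun i => (c i : ZMod p)) ∉ {v : Fin r → ZMod p | aeval v h = 0 ∧ aeval v G ≠ 0}} := by
    refine hC (Fin r) (fun p => p) (fun p hp => hp.one_lt.le)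
      (fun p p' hp hp' hne => (Nat.coprime_primes hp hp').2 hne)
      (fun p => {v : Fin r → ZMod p | aeval v h = 0 ∧ aeval v G ≠ 0}) D
      (fun p => ({v : Fin r → ZMod p | aeval v h = 0 ∧ aeval v G ≠ 0}.ncard : ℝ) / (p : ℝ) ^ r)
      (fun p => by positivity) hdiv ?_
    intro p hp _
    have hp0 : (0 : ℝ) < p := by exact_mod_cast hp.pos
    rw [Fintype.card_fin]
    rw [div_mul_cancel₀ _ (by positivity)]
  refine hmono _ _ ?_ (hunion _ _ h1 h2)
  intro t ht
  by_cases h3 : eval t h = 0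
  · exact Or.inl h3
  · right
    intro p hp hpD hmem
    apply ht
    refine ⟨h3, p, hp, hpD, ?_, ?_⟩
    · have h4 : aeval (fun i => (t i : ZMod p)) h = 0 := hmem.1
      rw [aeval_red, ZMod.intCast_zmod_eq_zero_iff_dvd] at h4
      exact h4
    · intro h5
      apply hmem.2
      rw [aeval_red, ZMod.intCast_zmod_eq_zero_iff_dvd]
      exact h5

/-- a set of times of density zero -/
def Rare (S : Set ℕ) : Prop :=
  Tendsto (fun N : ℕ => (({n : ℕ | n < N ∧ n ∈ S}.ncard : ℕ) : ℝ) / (N : ℝ)) atTop (𝓝 0)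

theorem fin_lt (S : Set ℕ) (N : ℕ) : {n : ℕ | n < N ∧ n ∈ S}.Finite :=
  (Set.finite_lt_nat N).subset fun _ h => h.1

theorem Rare.mono {S T : Set ℕ} (h : Rare T) (hST : S ⊆ T) : Rare S := by
  refine squeeze_zero (fun N => by positivity) (fun N => ?_) h
  have h1 : {n : ℕ | n < N ∧ n ∈ S}.ncard ≤ {n : ℕ | n < N ∧ n ∈ T}.ncard :=
    Set.ncard_le_ncard (fun n hn => ⟨hn.1, hST hn.2⟩) (fin_lt T N)
  gcongr

theorem rare_empty : Rare ∅ := by
  have : (fun N : ℕ => (({n : ℕ | n < N ∧ n ∈ (∅ : Set ℕ)}.ncard : ℕ) : ℝ) / (N : ℝ)) =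
      fun _ => 0 := by
    funext N
    simp
  unfold Rare
  rw [this]
  exact tendsto_const_nhds

theorem Rare.union {S T : Set ℕ} (hS : Rare S) (hT : Rare T) : Rare (S ∪ T) := by
  have h0 := hS.add hT
  rw [add_zero] at h0
  refine squeeze_zero (fun N => by positivity) (fun N => ?_) h0
  have h1 : {n : ℕ | n < N ∧ n ∈ S ∪ T} = {n : ℕ | n < N ∧ n ∈ S} ∪ {n : ℕ | n < N ∧ n ∈ T} := by
    ext n
    constructor
    · rintro ⟨h1, h2 | h2⟩
      · exact Or.inl ⟨h1, h2⟩
      · exact Or.inr ⟨h1, h2⟩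
    · rintro (⟨h1, h2⟩ | ⟨h1, h2⟩)
      · exact ⟨h1, Or.inl h2⟩
      · exact ⟨h1, Or.inr h2⟩
  have h2 : {n : ℕ | n < N ∧ n ∈ S ∪ T}.ncard ≤
      {n : ℕ | n < N ∧ n ∈ S}.ncard + {n : ℕ | n < N ∧ n ∈ T}.ncard := by
    rw [h1]
    exact Set.ncard_union_le _ _
  rw [← add_div]
  have h3 : (({n : ℕ | n < N ∧ n ∈ S ∪ T}.ncard : ℕ) : ℝ) ≤
      (({n : ℕ | n < N ∧ n ∈ S}.ncard : ℕ) : ℝ) + (({n : ℕ | n < N ∧ n ∈ T}.ncard : ℕ) : ℝ) := by
    exact_mod_cast h2
  gcongr

theorem rare_iUnion {M : ℕ} (S : Fin M → Set ℕ) (h : ∀ l, Rare (S l)) : Rare (⋃ l, S l) := by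
  classical
  have h1 : ∀ T : Finset (Fin M), Rare (⋃ l ∈ T, S l) := by
    intro T
    induction T using Finset.induction_on with
    | empty => simpa using rare_empty
    | insert a T ha ih =>
      rw [Finset.set_biUnion_insert]
      exact (h a).union ih
  have h2 := h1 Finset.univ
  simpa using h2

theorem proNull_iUnion (hD : S_CLO) {ι : Type} [Fintype ι] [Nonempty ι] {M : ℕ}
    (S : Fin M → Set (ι → ℤ)) (h : ∀ l, ProNull (S l)) : ProNull (⋃ l, S l) := by
  classical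
  obtain ⟨hmono, hunion, hfin, -, -⟩ := hD ι
  have h1 : ∀ T : Finset (Fin M), ProNull (⋃ l ∈ T, S l) := by
    intro T
    induction T using Finset.induction_on with
    | empty => simpa using hfin ‹_› ∅ Set.finite_empty
    | insert a T ha ih =>
      rw [Finset.set_biUnion_insert]
      exact hunion _ _ (h a) ih
  have h2 := h1 Finset.univ
  simpa using h2

theorem countable_mv (r : ℕ) : Countable (MvPolynomial (Fin r) ℤ) := by
  rw [← Cardinal.mk_le_aleph0_iff]
  exact (MvPolynomial.cardinalMk_le_max (σ := Fin r) (R := ℤ)).trans (by simp)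

/-- along almost every random orbit all conditions on prime divisors are satisfied at almost all
times -/
theorem ae_all (hC : S_CRIT) (hD : S_CLO) (hM : S_MAIN) {r : ℕ} (hr : 2 ≤ r) (W : Walk (Fin r))
    (v : Fin r → ℤ) (hv : v ≠ 0) : ∀ᵐ w ∂(words W.m), ∀ (h G : MvPolynomial (Fin r) ℤ) (D : ℕ),
      h ≠ 0 → Divergent h G → Rare {n | orb W v w n ∈ Bd h G D} := by
  have hc := countable_mv r
  rw [ae_all_iff]
  intro h
  rw [ae_all_iff]
  intro G
  rw [ae_all_iff]
  intro D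
  by_cases hh : h ≠ 0 ∧ Divergent h G
  · have h1 := hM (Fin r) (by rw [Fintype.card_fin]; exact hr) W v hv _ (bd_null hC hD hh.1 hh.2 D)
    filter_upwards [h1] with w hw _ _
    exact hw
  · refine Filter.Eventually.of_forall fun w h1 h2 => absurd ⟨h1, h2⟩ hh

end Pool.Agent.N618.RO
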